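import Pool.Agent.Q253.MN.Tree

/-!
# Sixty-three disjoint edges: Hall's theorem
-/

set_option autoImplicit false
set_option linter.unusedSectionVars false

namespace Pool.Agent.Q253.MN

open Finset Pool.Agent.Y335.FL

/-- the words of the lengths 0, 2 and 4 -/
def wd : Fin 21 → List Bool :=
  ![[], [true, true], [true, false], [false, true], [false, false],
    [true, true, true, true], [true, true, true, false], [true, true, false, true],
    [true, true, false, false], [true, false, true, true], [true, false, true, false],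
    [true, false, false, true], [true, false, false, false], [false, true, true, true],
    [false, true, true, false], [false, true, false, true], [false, true, false, false],
    [false, false, true, true], [false, false, true, false], [false, false, false, true],
    [false, false, false, false]]

theorem wd_inj : Function.Injective wd := by decide

theorem wd_len : ∀ i, (wd i).length ≤ 4 ∧ (wd i).length % 2 = 0 := by decide

theorem wd_nil : ∀ i, wd i = [] → i = 0 := by decide

section

variable {V : Type} [Fintype V] [DecidableEq V] {G : SimpleGraph V}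
  {c : V → V → Bool → V} {v : V} {r : Fin 3 → V}

/-- the node of an index -/
def nd (c : V → V → Bool → V) (v : V) (r : Fin 3 → V) (i : Fin 3 × Fin 21) : V :=
  (st c v r i.1 (wd i.2)).2

/-- the three neighbours of a node -/
def tt (c : V → V → Bool → V) (v : V) (r : Fin 3 → V) (i : Fin 3 × Fin 21) : Finset V :=
  {(st c v r i.1 (wd i.2)).1, (st c v r i.1 (true :: wd i.2)).2,
    (st c v r i.1 (false :: wd i.2)).2}

theorem st_cons (j : Fin 3) (b : Bool) (w : List Bool) :
    (st c v r j (b :: w)).1 = (st c v r j w).2 := rfl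

theorem mem_tt {i : Fin 3 × Fin 21} {x : V} : x ∈ tt c v r i ↔
    x = (st c v r i.1 (wd i.2)).1 ∨ ∃ b, x = (st c v r i.1 (b :: wd i.2)).2 := by
  unfold tt
  rw [mem_insert, mem_insert, mem_singleton]
  constructor
  · rintro (h | h | h)
    · exact Or.inl h
    · exact Or.inr ⟨true, h⟩
    · exact Or.inr ⟨false, h⟩
  · rintro (h | ⟨b, h⟩)
    · exact Or.inl h
    · cases b
      · exact Or.inr (Or.inr h)
      · exact Or.inr (Or.inl h)

theorem Dat.card_tt (h : Dat G c v r) (i : Fin 3 × Fin 21) : (tt c v r i).card = 3 := by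
  have h1 := h.st_adj i.1 (wd i.2)
  have h2 := h.adj _ _ h1
  refine card_eq_three.2 ⟨_, _, _, ?_, ?_, ?_, rfl⟩
  · exact (h2 true).2.symm
  · exact (h2 false).2.symm
  · exact h.ne _ _ h1

/-- the elements of `tt i` have even depth -/
theorem mem_tt' {i : Fin 3 × Fin 21} {x : V} (hx : x ∈ tt c v r i) :
    (x = v ∧ i.2 = 0) ∨ ∃ w : List Bool, w.length ≤ 5 ∧ w.length % 2 = 1 ∧
      x = (st c v r i.1 w).2 ∧ ((∃ b, wd i.2 = b :: w) ∨ (∃ b, b :: wd i.2 = w)) := by
  rcases mem_tt.1 hx with h | ⟨b, h⟩
  · obtain ⟨h1, h2⟩ := wd_len i.2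
    cases hw : wd i.2 with
    | nil =>
      rw [hw] at h
      exact Or.inl ⟨h, wd_nil _ hw⟩
    | cons b w =>
      rw [hw] at h h1 h2
      rw [List.length_cons] at h1 h2
      exact Or.inr ⟨w, by omega, by omega, h, Or.inl ⟨b, rfl⟩⟩
  · obtain ⟨h1, h2⟩ := wd_len i.2
    exact Or.inr ⟨b :: wd i.2, by rw [List.length_cons]; omega,
      by rw [List.length_cons]; omega, h, Or.inr ⟨b, rfl⟩⟩

theorem Dat.deg_le (h : Dat G c v r) (x : V) :
    (univ.filter (fun i : Fin 3 × Fin 21 => x ∈ tt c v r i)).card ≤ 3 := by
  classical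
  by_cases hxv : x = v
  · have h1 : univ.filter (fun i : Fin 3 × Fin 21 => x ∈ tt c v r i) ⊆
        (univ : Finset (Fin 3)).image (fun j => (j, (0 : Fin 21))) := by
      intro i hi
      rcases mem_tt' (mem_filter.1 hi).2 with ⟨_, h2⟩ | ⟨w, hw, _, h2, _⟩
      · exact mem_image.2 ⟨i.1, mem_univ _, by rw [← h2]⟩
      · exact absurd (h2.symm.trans hxv) (h.ne_root hw)
    exact (card_le_card h1).trans (card_image_le.trans (by simp))
  · by_cases hs : ∃ (j : Fin 3) (w : List Bool), w.length ≤ 4 ∧ x = (st c v r j w).2
    · obtain ⟨j, w, hw, hx⟩ := hs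
      have h1 : ∀ i ∈ univ.filter (fun i : Fin 3 × Fin 21 => x ∈ tt c v r i),
          i.1 = j ∧ wd i.2 ∈ ({true :: w, false :: w, w.tail} : Finset (List Bool)) := by
        intro i hi
        rcases mem_tt' (mem_filter.1 hi).2 with ⟨h2, _⟩ | ⟨w', hw', _, h2, h3⟩
        · exact absurd h2 hxv
        · obtain ⟨rfl, rfl⟩ := h.addr hw' (by omega) (by omega) (h2.symm.trans hx)
          refine ⟨rfl, ?_⟩
          rw [mem_insert, mem_insert, mem_singleton]
          rcases h3 with ⟨b, h3⟩ | ⟨b, h3⟩
          · cases b
            · exact Or.inr (Or.inl h3)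
            · exact Or.inl h3
          · exact Or.inr (Or.inr (by rw [← h3]; rfl))
      have h2 := card_le_card_of_injOn (s := univ.filter (fun i : Fin 3 × Fin 21 => x ∈ tt c v r i))
        (t := ({true :: w, false :: w, w.tail} : Finset (List Bool))) (fun i => wd i.2)
        (fun i hi => (h1 i hi).2) (by
          intro i hi i' hi' he
          exact Prod.ext ((h1 i hi).1.trans (h1 i' hi').1.symm) (wd_inj he))
      exact h2.trans card_le_three
    · have h1 : ∀ i ∈ univ.filter (fun i : Fin 3 × Fin 21 => x ∈ tt c v r i),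
          ∃ b, x = (st c v r i.1 (b :: wd i.2)).2 := by
        intro i hi
        rcases mem_tt' (mem_filter.1 hi).2 with ⟨h2, _⟩ | ⟨w', hw', _, h2, h3⟩
        · exact absurd h2 hxv
        · rcases h3 with ⟨b, h3⟩ | ⟨b, h3⟩
          · exfalso
            apply hs
            refine ⟨i.1, w', ?_, h2⟩
            have := (wd_len i.2).1
            rw [h3, List.length_cons] at this
            omega
          · exact ⟨b, by rw [h3]; exact h2⟩
      have h2 := card_le_card_of_injOn (s := univ.filter (fun i : Fin 3 × Fin 21 => x ∈ tt c v r i))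
        (t := (univ : Finset (Fin 3))) (fun i => i.1) (fun i _ => mem_univ _) (by
          intro i hi i' hi' he
          obtain ⟨b, hb⟩ := h1 i hi
          obtain ⟨b', hb'⟩ := h1 i' hi'
          have he' : i.1 = i'.1 := he
          rw [← he'] at hb'
          have h3 := h.addr_same (by
              rw [List.length_cons]
              have := (wd_len i.2).1
              omega) (by
              rw [List.length_cons]
              have := (wd_len i'.2).1
              omega) (hb.symm.trans hb')
          exact Prod.ext he' (wd_inj (List.cons.inj h3).2))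
      exact h2.trans (by simp)

/-- **Hall's theorem.** -/
theorem Dat.hall (h : Dat G c v r) : ∃ f : Fin 3 × Fin 21 → V, Function.Injective f ∧
    ∀ i, f i ∈ tt c v r i := by
  classical
  refine (Finset.all_card_le_biUnion_card_iff_exists_injective _).1 fun s => ?_
  have h1 := Finset.card_mul_le_card_mul (s := s) (t := s.biUnion (tt c v r)) (m := 3) (n := 3)
    (fun i x => x ∈ tt c v r i) (by
      intro i hi
      refine (h.card_tt i).symm.le.trans (card_le_card fun x hx => ?_)
      exact (mem_bipartiteAbove _).2 ⟨mem_biUnion.2 ⟨i, hi, hx⟩, hx⟩) (by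
      intro x _
      refine (card_le_card fun i hi => ?_).trans (h.deg_le x)
      exact mem_filter.2 ⟨mem_univ _, ((mem_bipartiteBelow _).1 hi).2⟩)
  omega

/-- **Sixty-three disjoint edges.** -/
theorem Dat.edges (h : Dat G c v r) : ∃ a b : Fin 3 × Fin 21 → V,
    Function.Injective a ∧ Function.Injective b ∧ (∀ i k, a i ≠ b k) ∧ ∀ i, G.Adj (a i) (b i) := by
  obtain ⟨f, hf, hft⟩ := h.hall
  refine ⟨nd c v r, f, ?_, hf, ?_, ?_⟩
  · intro i k hik
    have h1 := (wd_len i.2).1
    have h2 := (wd_len k.2).1
    obtain ⟨h3, h4⟩ := h.addr (by omega) (by omega) (by omega) hik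
    exact Prod.ext h3 (wd_inj h4)
  · intro i k hik
    obtain ⟨h1, h1'⟩ := wd_len i.2
    rcases mem_tt' (hft k) with ⟨h2, _⟩ | ⟨w, hw, hw', h2, _⟩
    · exact h.ne_root (by omega : (wd i.2).length ≤ 5) (hik.trans h2)
    · obtain ⟨_, h4⟩ := h.addr (by omega) hw (by omega) (hik.trans h2)
      rw [h4] at h1'
      omega
  · intro i
    have h1 := h.st_adj i.1 (wd i.2)
    rcases mem_tt.1 (hft i) with h2 | ⟨b, h2⟩
    · rw [h2]
      exact h1
    · rw [h2]
      exact (h.adj _ _ h1 b).1

end

end Pool.Agent.Q253.MN
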