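import Pool.Agent.Q253.MN.Hall

/-!
# Graphs with matching number at most 62
-/

set_option autoImplicit false
set_option linter.unusedSectionVars false

namespace Pool.Agent.Q253.MN

open Finset Pool.Agent.TH676.Z Pool.Agent.Y335.FL Pool.Agent.Y358.IN

section

variable {V E : Type} [Fintype V] [DecidableEq V] [Fintype E] [DecidableEq E]

/-- the class -/
def ClM (src dst : E → V) : Prop := ∀ M : Finset E, (∀ e ∈ M, src e ≠ dst e) →
  (∀ e ∈ M, ∀ f ∈ M, e ≠ f → src e ≠ src f ∧ src e ≠ dst f ∧ dst e ≠ src f ∧ dst e ≠ dst f) →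
    M.card ≤ 62

theorem ccM : CC (V := V) (E := E) ClM := by
  intro src dst e h _ M hM hM'
  refine h M (fun f hf hl => hM f hf (congrArg _ hl)) (fun f hf g hg hfg => ?_)
  obtain ⟨h1, h2, h3, h4⟩ := hM' f hf g hg hfg
  exact ⟨fun hl => h1 (congrArg (ctr (src e) (dst e)) hl),
    fun hl => h2 (congrArg (ctr (src e) (dst e)) hl),
    fun hl => h3 (congrArg (ctr (src e) (dst e)) hl),
    fun hl => h4 (congrArg (ctr (src e) (dst e)) hl)⟩

end

theorem two_of_three {V : Type} {P : V → Prop} (p : V)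
    (h : ∃ a b c, P a ∧ P b ∧ P c ∧ a ≠ b ∧ a ≠ c ∧ b ≠ c) :
    ∃ g : Bool → V, (∀ b, P (g b) ∧ g b ≠ p) ∧ g true ≠ g false := by
  obtain ⟨a, b, c, ha, hb, hc, hab, hac, hbc⟩ := h
  by_cases h1 : a = p
  · refine ⟨fun x => if x then b else c, ?_, by simpa using hbc⟩
    intro x
    cases x
    · exact ⟨hc, fun h => hac (h1.trans h.symm)⟩
    · exact ⟨hb, fun h => hab (h1.trans h.symm)⟩
  · by_cases h2 : b = p
    · refine ⟨fun x => if x then a else c, ?_, by simpa using hac⟩
      intro x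
      cases x
      · exact ⟨hc, fun h => hbc (h2.trans h.symm)⟩
      · exact ⟨ha, h1⟩
    · refine ⟨fun x => if x then a else b, ?_, by simpa using hab⟩
      intro x
      cases x
      · exact ⟨hb, h2⟩
      · exact ⟨ha, h1⟩

/-- **Main step.** -/
theorem flow_of_ClM (hc : St_contract) {V E : Type} [Fintype V] [DecidableEq V]
    [Fintype E] [DecidableEq E] (src dst : E → V) (hcl : ClM src dst) (hbr : Br src dst ∅ ∅) :
    FlowOn src dst ∅ ∅ := by
  classical
  by_contra hn
  obtain ⟨s, d, hS, hM⟩ := exists_minC ccM src dst hcl hbr hn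
  have h3 := threeC hc hM
  have hgi := girthC hc hM
  by_cases hl : ∀ e, s e = d e
  · exact hM.nf (flow_of_loops hl)
  push Not at hl
  obtain ⟨e, he⟩ := hl
  let G : SimpleGraph V :=
    { Adj := Adj s d
      symm := ⟨fun a b h => GiAux.adj_symm h⟩
      loopless := ⟨fun a h => h.1 rfl⟩ }
  have hG : ∀ a b, G.Adj a b ↔ Adj s d a b := fun a b => Iff.rfl
  have h12 : ∀ (w : V) (c : G.Walk w w), c.IsCycle → 12 ≤ c.length :=
    fun w c hc => Ord.cycle_len hgi G hG c hc
  have hxy : G.Adj (s e) (d e) := ⟨he, e, Or.inl ⟨rfl, rfl⟩⟩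
  obtain ⟨r0, r1, r2, hr0, hr1, hr2, hr01, hr02, hr12⟩ := h3 _ _ hxy
  have hch : ∀ p u : V, ∃ g : Bool → V, G.Adj u p →
      (∀ b, G.Adj u (g b) ∧ g b ≠ p) ∧ g true ≠ g false := by
    intro p u
    by_cases hu : G.Adj u p
    · obtain ⟨g, hg⟩ := two_of_three p (h3 u p hu)
      exact ⟨g, fun _ => hg⟩
    · exact ⟨fun _ => u, fun h => absurd h hu⟩
  choose c hc using hch
  have hD : Dat G c (s e) ![r0, r1, r2] := by
    refine ⟨h12, fun p u hu => (hc p u hu).1, fun p u hu => (hc p u hu).2, ?_, ?_⟩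
    · intro j
      fin_cases j
      · exact hr0
      · exact hr1
      · exact hr2
    · intro i j hij
      fin_cases i <;> fin_cases j
      · rfl
      · exact absurd hij hr01
      · exact absurd hij hr02
      · exact absurd hij.symm hr01
      · rfl
      · exact absurd hij hr12
      · exact absurd hij.symm hr02
      · exact absurd hij.symm hr12
      · rfl
  obtain ⟨a, b, ha, hb, hab, hadj⟩ := hD.edges
  have he2 : ∀ i, ∃ e, (s e = a i ∧ d e = b i) ∨ (s e = b i ∧ d e = a i) := fun i => (hadj i).2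
  choose ed hed using he2
  have hdis : ∀ i k, i ≠ k → s (ed i) ≠ s (ed k) ∧ s (ed i) ≠ d (ed k) ∧
      d (ed i) ≠ s (ed k) ∧ d (ed i) ≠ d (ed k) := by
    intro i k hik
    have h1 : a i ≠ a k := fun h => hik (ha h)
    have h2 : b i ≠ b k := fun h => hik (hb h)
    have h3 := hab i k
    have h4 := (hab k i).symm
    rcases hed i with ⟨e1, e2⟩ | ⟨e1, e2⟩ <;> rcases hed k with ⟨e3, e4⟩ | ⟨e3, e4⟩ <;>
      rw [e1, e2, e3, e4]
    · exact ⟨h1, h3, h4, h2⟩
    · exact ⟨h3, h1, h2, h4⟩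
    · exact ⟨h4, h2, h1, h3⟩
    · exact ⟨h2, h4, h3, h1⟩
  have hinj : Function.Injective ed := by
    intro i k hik
    by_contra hne
    exact (hdis i k hne).1 (by rw [hik])
  have h1 := hS (univ.image ed) (by
      intro f hf
      obtain ⟨i, _, rfl⟩ := mem_image.1 hf
      rcases hed i with ⟨e1, e2⟩ | ⟨e1, e2⟩ <;> rw [e1, e2]
      · exact hab i i
      · exact (hab i i).symm) (by
      intro f hf g hg hfg
      obtain ⟨i, _, rfl⟩ := mem_image.1 hf
      obtain ⟨k, _, rfl⟩ := mem_image.1 hg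
      exact hdis i k (fun h => hfg (by rw [h])))
  rw [card_image_of_injective _ hinj] at h1
  simp at h1

end Pool.Agent.Q253.MN
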