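import Pool.Agent.Y358.IN.Ind2

/-!
# Sixty-three disjoint edges in a graph of girth twelve with degrees at least three

The odd vertices (distance 1, 3, 5) of a cubic tree of radius six around a vertex are matched into
the even ones by Hall's theorem: every odd vertex has three neighbours in the tree, and every even
vertex has at most three neighbours among the odd vertices.
-/

set_option autoImplicit false
set_option linter.unusedSectionVars false

namespace Pool.Agent.Q253.MN

open Finset Pool.Agent.Y335.FL

variable {V : Type}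

/-- the last two vertices of the walk with the address `w` in the branch `j` -/
def st (c : V → V → Bool → V) (v : V) (r : Fin 3 → V) (j : Fin 3) : List Bool → V × V
  | [] => (v, r j)
  | b :: w => ((st c v r j w).2, c (st c v r j w).1 (st c v r j w).2 b)

/-- the vertices of the walk with the address `w` in the branch `j`, the last one first -/
def sq (c : V → V → Bool → V) (v : V) (r : Fin 3 → V) (j : Fin 3) : List Bool → List V
  | [] => [r j, v]
  | b :: w => (st c v r j (b :: w)).2 :: sq c v r j w

theorem sq_length (c : V → V → Bool → V) (v : V) (r : Fin 3 → V) (j : Fin 3) (w : List Bool) :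
    (sq c v r j w).length = w.length + 2 := by
  induction w with
  | nil => rfl
  | cons b w ih => simp [sq, ih]

section

variable [Fintype V] [DecidableEq V] {G : SimpleGraph V}

/-- a vertex with two more neighbours at every step -/
structure Dat (G : SimpleGraph V) (c : V → V → Bool → V) (v : V) (r : Fin 3 → V) : Prop where
  h12 : ∀ (w : V) (c : G.Walk w w), c.IsCycle → 12 ≤ c.length
  adj : ∀ p u, G.Adj u p → ∀ b, G.Adj u (c p u b) ∧ c p u b ≠ p
  ne : ∀ p u, G.Adj u p → c p u true ≠ c p u false
  radj : ∀ j, G.Adj v (r j)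
  rinj : Function.Injective r

variable {c : V → V → Bool → V} {v : V} {r : Fin 3 → V}

theorem Dat.st_adj (h : Dat G c v r) (j : Fin 3) (w : List Bool) :
    G.Adj (st c v r j w).2 (st c v r j w).1 := by
  induction w with
  | nil => exact (h.radj j).symm
  | cons b w ih => exact (h.adj _ _ ih b).1.symm

theorem Dat.c_inj (h : Dat G c v r) {p u : V} (hu : G.Adj u p) {b b' : Bool}
    (hb : c p u b = c p u b') : b = b' := by
  have := h.ne p u hu
  cases b <;> cases b'
  · rfl
  · exact absurd hb.symm this
  · exact absurd hb this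
  · rfl

theorem Dat.sq_inj (h : Dat G c v r) {j j' : Fin 3} : ∀ {w w' : List Bool},
    sq c v r j w = sq c v r j' w' → j = j' ∧ w = w'
  | [], [], he => by
    have h1 : r j = r j' := (List.cons.inj he).1
    exact ⟨h.rinj h1, rfl⟩
  | [], b' :: w', he => by
    have := congrArg List.length he
    rw [sq_length, sq_length, List.length_cons, List.length_nil] at this
    omega
  | b :: w, [], he => by
    have := congrArg List.length he
    rw [sq_length, sq_length, List.length_cons, List.length_nil] at this
    omega
  | b :: w, b' :: w', he => by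
    obtain ⟨h1, h2⟩ := List.cons.inj he
    obtain ⟨rfl, rfl⟩ := h.sq_inj h2
    have h3 := h.c_inj (h.st_adj j w) h1
    exact ⟨rfl, by rw [h3]⟩

theorem not_mem (h12 : ∀ (w : V) (c : G.Walk w w), c.IsCycle → 12 ≤ c.length) {u p x z : V}
    (h : G.Adj u p) (Q : G.Walk p x) (hQ : (SimpleGraph.Walk.cons h Q).IsPath) (hz : G.Adj u z)
    (hzp : z ≠ p) (hl : Q.length ≤ 9) : z ∉ (SimpleGraph.Walk.cons h Q).support := by
  intro hm
  rw [SimpleGraph.Walk.support_cons, List.mem_cons] at hm
  rcases hm with rfl | hm
  · exact hz.ne rfl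
  · obtain ⟨h1, h2⟩ := (SimpleGraph.Walk.cons_isPath_iff h Q).1 hQ
    have h3 : (SimpleGraph.Walk.cons h (Q.takeUntil z hm)).IsPath :=
      (SimpleGraph.Walk.cons_isPath_iff _ _).2
        ⟨h1.takeUntil hm, fun h4 => h2 (Q.support_takeUntil_subset_support hm h4)⟩
    have h4 := Q.length_takeUntil_le_length hm
    have h5 := Ord.uniq h12 h3 (Ord.edge_path hz) (by
      simp only [SimpleGraph.Walk.length_cons, SimpleGraph.Walk.length_nil]
      omega)
    have h6 := congrArg SimpleGraph.Walk.length h5
    simp only [SimpleGraph.Walk.length_cons, SimpleGraph.Walk.length_nil] at h6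
    exact hzp (SimpleGraph.Walk.eq_of_length_eq_zero (by omega : (Q.takeUntil z hm).length = 0)).symm

/-- the walks back to the root `v` and to the neighbour `r j` of the root -/
theorem Dat.walks (h : Dat G c v r) (j : Fin 3) : ∀ w : List Bool, w.length ≤ 5 →
    ∃ (Q' : G.Walk (st c v r j w).1 v) (hQ : G.Adj (st c v r j w).2 (st c v r j w).1)
      (R : G.Walk (st c v r j w).2 (r j)),
      (SimpleGraph.Walk.cons hQ Q').IsPath ∧ R.IsPath ∧
      (SimpleGraph.Walk.cons hQ Q').support = sq c v r j w ∧
      R.support ++ [v] = sq c v r j w ∧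
      Q'.length = w.length ∧ R.length = w.length
  | [], _ => by
    refine ⟨SimpleGraph.Walk.nil, (h.radj j).symm, SimpleGraph.Walk.nil, Ord.edge_path _,
      SimpleGraph.Walk.IsPath.nil, ?_, ?_, rfl, rfl⟩
    · rfl
    · rfl
  | b :: w, hw => by
    rw [List.length_cons] at hw
    obtain ⟨Q', hQ, R, h1, h2, h3, h4, h5, h6⟩ := h.walks j w (by omega)
    have hz := h.adj _ _ hQ b
    have hn := not_mem h.h12 hQ Q' h1 hz.1 hz.2 (by omega)
    have hR : c (st c v r j w).1 (st c v r j w).2 b ∉ R.support := by
      intro hm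
      apply hn
      rw [h3, ← h4]
      exact List.mem_append_left _ hm
    refine ⟨SimpleGraph.Walk.cons hQ Q', hz.1.symm, SimpleGraph.Walk.cons hz.1.symm R,
      (SimpleGraph.Walk.cons_isPath_iff _ _).2 ⟨h1, hn⟩,
      (SimpleGraph.Walk.cons_isPath_iff _ _).2 ⟨h2, hR⟩, ?_, ?_, ?_, ?_⟩
    · exact congrArg (List.cons _) h3
    · exact congrArg (List.cons _) h4
    · exact congrArg Nat.succ h5
    · exact congrArg Nat.succ h6

theorem uniq' (h12 : ∀ (w : V) (c : G.Walk w w), c.IsCycle → 12 ≤ c.length) {a a' x : V}
    (h : a = a') {p : G.Walk a x} {q : G.Walk a' x} (hp : p.IsPath) (hq : q.IsPath)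
    (hl : p.length + q.length ≤ 11) : p.support = q.support := by
  subst h
  rw [Ord.uniq h12 hp hq hl]

/-- addresses in the tree are unique -/
theorem Dat.addr (h : Dat G c v r) {j j' : Fin 3} {w w' : List Bool}
    (hw : w.length ≤ 5) (hw' : w'.length ≤ 5) (hl : w.length + w'.length ≤ 9)
    (he : (st c v r j w).2 = (st c v r j' w').2) : j = j' ∧ w = w' := by
  obtain ⟨Q, hQ, _, h1, _, h3, _, h5, _⟩ := h.walks j w hw
  obtain ⟨Q', hQ', _, h1', _, h3', _, h5', _⟩ := h.walks j' w' hw'
  have := uniq' h.h12 he h1 h1' (by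
    rw [SimpleGraph.Walk.length_cons, SimpleGraph.Walk.length_cons]
    omega)
  rw [h3, h3'] at this
  exact h.sq_inj this

/-- addresses in one branch are unique -/
theorem Dat.addr_same (h : Dat G c v r) {j : Fin 3} {w w' : List Bool}
    (hw : w.length ≤ 5) (hw' : w'.length ≤ 5)
    (he : (st c v r j w).2 = (st c v r j w').2) : w = w' := by
  obtain ⟨_, _, R, _, h2, _, h4, _, h6⟩ := h.walks j w hw
  obtain ⟨_, _, R', _, h2', _, h4', _, h6'⟩ := h.walks j w' hw'
  have := uniq' h.h12 he h2 h2' (by omega)
  have h7 : sq c v r j w = sq c v r j w' := by rw [← h4, ← h4', this]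
  exact (h.sq_inj h7).2

theorem Dat.ne_root (h : Dat G c v r) {j : Fin 3} {w : List Bool} (hw : w.length ≤ 5) :
    (st c v r j w).2 ≠ v := by
  intro he
  obtain ⟨Q, hQ, _, h1, _, h3, _, h5, _⟩ := h.walks j w hw
  have := uniq' (q := SimpleGraph.Walk.nil) h.h12 he h1 SimpleGraph.Walk.IsPath.nil (by
    rw [SimpleGraph.Walk.length_cons, SimpleGraph.Walk.length_nil]
    omega)
  have h6 := congrArg List.length this
  rw [SimpleGraph.Walk.length_support, SimpleGraph.Walk.length_support,
    SimpleGraph.Walk.length_cons, SimpleGraph.Walk.length_nil] at h6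
  omega

end

end Pool.Agent.Q253.MN
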